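import Pool.Agent.Run7.h42.LB.Fin3
import Pool.Agent.Run7.h42.LP.Ari

set_option autoImplicit false

/-!
# Truncated moments of products of zetas at arbitrary shifts (helper42): the projected measures
-/

namespace Run7.h42.TP

open Finset Filter MeasureTheory Topology Complex
open Pool.Agent.N748.MG Pool.Agent.N748.MJ
open Pool.Agent.N748.MJ.SM (cc)
open Run7.h42.LP Run7.h42.LB

variable {m : ℕ}

lemma small {d : ℝ → ℝ} (hd : Ad d) : ∀ᶠ T : ℝ in atTop, 0 < d T ∧ d T ≤ 1 / 16 ∧ 1 ≤ T := by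
  filter_upwards [hd.pos, hd.t0.eventually_le_const (show (0 : ℝ) < 1 / 16 by norm_num),
    eventually_ge_atTop 1] with T a b c
  exact ⟨a, b, c⟩

/-- the bound for the characteristic functions -/
theorem bdV (hP : S_POSV) {d : ℝ → ℝ} (hd : Ad d) {h : ℝ → Fin m → ℝ}
    (k : Fin m → ℝ) {K : ℝ} (hkk : ∀ j, |k j| ≤ K) (hK0 : 0 ≤ K) {D : ℝ} {N : ℝ → Set ℝ}
    (hN : ∀ n, ∀ᶠ T : ℝ in atTop, Gd d h D n T (N T))
    {r : ℝ → ℝ} {c1 : ℝ} (hc1 : 0 < c1) (hr : ∀ T, c1 ≤ r T) {R : ℝ} (hR : 0 < R) :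
    ∃ B : ℝ, 0 ≤ B ∧ ∀ᶠ T in atTop, ∀ ξ : Fin m → ℝ, (∀ j, |ξ j| ≤ R) →
      ‖cf (nuV (d T) (r T) T (h T) k (N T)) ξ‖ ≤ B * Real.exp (-(qf (d T) (h T) ξ / 4)) := by
  have hsm := small hd
  obtain ⟨c2, C2, hc2, hC2, hPo⟩ := hP m (K + R) (by linarith)
  refine ⟨(C2 + 1) / c1, by positivity, ?_⟩
  obtain ⟨n, hn⟩ := exists_nat_gt (K + R)
  filter_upwards [hN n, hsm] with T hT hT2 ξ hξ
  obtain ⟨h0, h1, hT1⟩ := hT2
  have hT0 : 0 < T := by linarith
  have hr0 : 0 < r T := lt_of_lt_of_le hc1 (hr T)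
  have hbn : ∀ j, ‖bb k ξ j‖ ≤ K + R := fun j => by
    have h2 := bb_norm k ξ j
    have h3 := hkk j
    have h4 := hξ j
    linarith [abs_nonneg (ξ j)]
  rw [cf_nuV h0 h1 hr0 hT0 (h T) k ξ hT.meas hT.nz, norm_mul, Complex.norm_real,
    Real.norm_of_nonneg (by positivity)]
  have h2 := hT.est (bb k ξ) (fun j => (hbn j).trans (by linarith))
  have h3 := (hPo (h T)).1 (bb k ξ) (bb k ξ) hbn hbn
  set W : ℂ := cexp (-(LM (bb k ξ) (bb k ξ) (h T) (d T))) *
    ∫ t in N T, ∏ j, ZZ (riemannZeta (pw (d T) (t + h T j))) (bb k ξ j) 0 with hW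
  have h4 : ‖W‖ ≤ (C2 + 1) * T := by
    have h5 : W = (W - T * aV (bb k ξ) (bb k ξ) (h T)) + T * aV (bb k ξ) (bb k ξ) (h T) := by ring
    rw [h5]
    refine (norm_add_le _ _).trans ?_
    rw [norm_mul, Complex.norm_real, Real.norm_of_nonneg hT0.le]
    have h6 : 1 / ((n:ℝ) + 1) ≤ 1 := by
      rw [div_le_one (by positivity)]
      linarith [(Nat.cast_nonneg n : (0:ℝ) ≤ n)]
    have h7 := mul_le_mul_of_nonneg_right h6 hT0.le
    have h8 := mul_le_mul_of_nonneg_left h3 hT0.le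
    linarith
  calc 1 / (T * r T) * Real.exp (-(qf (d T) (h T) ξ / 4)) * ‖W‖
      ≤ 1 / (T * r T) * Real.exp (-(qf (d T) (h T) ξ / 4)) * ((C2 + 1) * T) :=
        mul_le_mul_of_nonneg_left h4 (by positivity)
    _ = (C2 + 1) / r T * Real.exp (-(qf (d T) (h T) ξ / 4)) := by field_simp
    _ ≤ (C2 + 1) / c1 * Real.exp (-(qf (d T) (h T) ξ / 4)) := by
        refine mul_le_mul_of_nonneg_right ?_ (Real.exp_pos _).le
        exact div_le_div_of_nonneg_left (by positivity) hc1 (hr T)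

/-- the characteristic functions near zero -/
theorem nearV (hE : Run7.h291.WN.S_EQC) {d : ℝ → ℝ} (hd : Ad d) {h : ℝ → Fin m → ℝ}
    (k : Fin m → ℝ) {K : ℝ} (hkk : ∀ j, |k j| ≤ K) (hK0 : 0 ≤ K) {D : ℝ} {N : ℝ → Set ℝ}
    (hN : ∀ n, ∀ᶠ T : ℝ in atTop, Gd d h D n T (N T))
    {r : ℝ → ℝ} {c1 : ℝ} (hc1 : 0 < c1) (hr : ∀ T, c1 ≤ r T) (hra : ∀ T, aV (cc k) (cc k) (h T) = r T)
    {e : ℝ} (he : 0 < e) :
    ∃ η : ℝ, 0 < η ∧ ∀ᶠ T in atTop, ∀ ξ : Fin m → ℝ, (∀ j, |ξ j| ≤ η) →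
      ‖cf (nuV (d T) (r T) T (h T) k (N T)) ξ - Real.exp (-(qf (d T) (h T) ξ / 4))‖ ≤
        e * Real.exp (-(qf (d T) (h T) ξ / 4)) := by
  have hsm := small hd
  obtain ⟨η, hη, hEq⟩ := hE m (K + 1) (by linarith) (e * c1 / 2) (by positivity)
  refine ⟨min η 1, lt_min hη one_pos, ?_⟩
  obtain ⟨n, hn⟩ := exists_nat_gt (max (K + 1) (2 / (e * c1)))
  filter_upwards [hN n, hsm] with T hT hT2 ξ hξ
  obtain ⟨h0, h1, hT1⟩ := hT2
  have hT0 : 0 < T := by linarith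
  have hr0 : 0 < r T := lt_of_lt_of_le hc1 (hr T)
  have hbn : ∀ j, ‖bb k ξ j‖ ≤ K + 1 := fun j => by
    have h2 := bb_norm k ξ j
    have h3 := hkk j
    have h4 := (hξ j).trans (min_le_right _ _)
    linarith [abs_nonneg (ξ j)]
  have hcn : ∀ j, ‖cc k j‖ ≤ K + 1 := fun j => by
    unfold cc
    rw [Complex.norm_real, Real.norm_eq_abs]
    have := hkk j
    linarith
  have hdf : ∀ j, ‖bb k ξ j - cc k j‖ ≤ η := fun j => by
    rw [bb_diff]
    have h4 := (hξ j).trans (min_le_left _ _)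
    linarith [abs_nonneg (ξ j)]
  have hg := hEq (bb k ξ) (bb k ξ) (cc k) (cc k) hbn hbn hcn hcn hdf hdf (h T)
  rw [hra] at hg
  rw [cf_nuV h0 h1 hr0 hT0 (h T) k ξ hT.meas hT.nz]
  have h2 := hT.est (bb k ξ) (fun j => (hbn j).trans (by linarith [le_max_left (K + 1) (2 / (e * c1))]))
  set W : ℂ := cexp (-(LM (bb k ξ) (bb k ξ) (h T) (d T))) *
    ∫ t in N T, ∏ j, ZZ (riemannZeta (pw (d T) (t + h T j))) (bb k ξ j) 0 with hW
  set ex : ℝ := Real.exp (-(qf (d T) (h T) ξ / 4)) with hex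
  have hex0 : 0 < ex := Real.exp_pos _
  have h6 : 1 / ((n:ℝ) + 1) ≤ e * c1 / 2 := by
    have h7 : 2 / (e * c1) < (n:ℝ) + 1 := by linarith [le_max_right (K + 1) (2 / (e * c1))]
    rw [div_lt_iff₀ (by positivity)] at h7
    rw [div_le_iff₀ (by positivity)]
    linarith
  have h8 : ‖W - T * r T‖ ≤ e * c1 * T := by
    have h9 : W - T * r T = (W - T * aV (bb k ξ) (bb k ξ) (h T)) + T * (aV (bb k ξ) (bb k ξ) (h T) - r T) := by ring
    rw [h9]
    refine (norm_add_le _ _).trans ?_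
    rw [norm_mul, Complex.norm_real, Real.norm_of_nonneg hT0.le]
    have k1 := mul_le_mul_of_nonneg_right h6 hT0.le
    have k2 := mul_le_mul_of_nonneg_left hg hT0.le
    linarith
  have hT' : (T : ℂ) ≠ 0 := by exact_mod_cast hT0.ne'
  have hr' : ((r T : ℝ) : ℂ) ≠ 0 := by exact_mod_cast hr0.ne'
  have e1 : ((1 / (T * r T) * ex : ℝ) : ℂ) * W - (ex : ℂ) = ((1 / (T * r T) * ex : ℝ) : ℂ) * (W - T * r T) := by
    push_cast
    field_simp
  rw [e1, norm_mul, Complex.norm_real, Real.norm_of_nonneg (by positivity)]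
  calc 1 / (T * r T) * ex * ‖W - T * r T‖ ≤ 1 / (T * r T) * ex * (e * c1 * T) :=
        mul_le_mul_of_nonneg_left h8 (by positivity)
    _ = e * ex * (c1 / r T) := by field_simp
    _ ≤ e * ex * 1 := by
        refine mul_le_mul_of_nonneg_left ?_ (by positivity)
        rw [div_le_one hr0]
        exact hr T
    _ = e * ex := mul_one _

/-- the projection -/
def pj (w x : Fin m → ℝ) : Fin 1 → ℝ := fun _ => ∑ j, w j * x j

lemma pj_meas (w : Fin m → ℝ) : Measurable (pj w) :=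
  measurable_pi_lambda _ fun _ => Finset.measurable_fun_sum _ fun j _ => (measurable_pi_apply j).const_mul _

lemma cf_pj (κ : Measure (Fin m → ℝ)) (w : Fin m → ℝ) (ξ : Fin 1 → ℝ) :
    cf (κ.map (pj w)) ξ = cf κ (fun j => ξ 0 * w j) := by
  unfold cf
  rw [integral_map (pj_meas w).aemeasurable (ee_cont2 ξ).aestronglyMeasurable]
  refine integral_congr_ae (Eventually.of_forall fun x => ?_)
  simp only
  unfold ee pj
  have : ∑ j : Fin 1, ξ j * ∑ l, w l * x l = ∑ j, ξ 0 * w j * x j := by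
    simp only [Finset.univ_unique, Fin.default_eq_zero, Finset.sum_singleton]
    rw [Finset.mul_sum]
    exact Finset.sum_congr rfl fun j _ => by ring
  rw [this]

lemma qf_smul (δ : ℝ) (h w : Fin m → ℝ) (x : ℝ) : qf δ h (fun j => x * w j) = x ^ 2 * qf δ h w := by
  unfold qf
  rw [Finset.mul_sum]
  refine Finset.sum_congr rfl fun j _ => ?_
  rw [Finset.mul_sum]
  exact Finset.sum_congr rfl fun l _ => by ring

lemma sum_w_me (δ : ℝ) (h w : Fin m → ℝ) (V : ℝ) : ∑ j, w j * me δ h (fun j => V * w j) j = V * qf δ h w := by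
  rw [sum_me]
  unfold qf
  rw [Finset.mul_sum]
  refine Finset.sum_congr rfl fun j _ => ?_
  rw [Finset.mul_sum]
  exact Finset.sum_congr rfl fun l _ => by ring

lemma AN_one {Λ : ℝ} (hΛ : 0 < Λ) : AN (fun ξ : Fin 1 → ℝ => ξ 0 ^ 2 * Λ) = Real.sqrt (Real.pi * Λ) := by
  have e1 : IT (fun ξ : Fin 1 → ℝ => ξ 0 ^ 2 * Λ) = Real.sqrt (Real.pi / (Λ / 4)) ^ 1 := by
    rw [← gs_val]
    unfold IT
    refine integral_congr_ae (Eventually.of_forall fun ξ => ?_)
    simp only [Finset.univ_unique, Fin.default_eq_zero, Finset.sum_singleton]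
    congr 1
    ring
  unfold AN
  rw [e1, pow_one, pow_one]
  have hp := Real.pi_pos
  have hs : 0 < Real.sqrt (Real.pi / (Λ / 4)) := Real.sqrt_pos.2 (by positivity)
  rw [div_eq_iff hs.ne', ← Real.sqrt_mul (by positivity)]
  rw [show Real.pi * Λ * (Real.pi / (Λ / 4)) = (2 * Real.pi) ^ 2 by field_simp; ring]
  rw [Real.sqrt_sq (by positivity)]

/-- the measures -/
noncomputable def nuP (δ r T : ℝ) (h w : Fin m → ℝ) (V : ℝ) (N : Set ℝ) : Measure (Fin 1 → ℝ) :=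
  (nuV δ r T h (fun j => V * w j) N).map (pj w)

lemma log_tend {d : ℝ → ℝ} (hd : Ad d) : Tendsto (fun T => Real.log (1 / d T)) atTop atTop := by
  have h1 : Tendsto d atTop (𝓝[>] 0) := by
    rw [tendsto_nhdsWithin_iff]
    exact ⟨hd.t0, hd.pos⟩
  have h2 := Real.tendsto_log_nhdsGT_zero.comp h1
  have h3 := tendsto_neg_atBot_atTop.comp h2
  refine h3.congr fun T => ?_
  simp only [Function.comp_apply]
  rw [one_div, Real.log_inv]

lemma abs_kw (w : Fin m → ℝ) (V : ℝ) (j : Fin m) : |V * w j| ≤ |V| * ∑ j, |w j| := by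
  rw [abs_mul]
  exact mul_le_mul_of_nonneg_left (Finset.single_le_sum (f := fun i => |w i|) (fun i _ => abs_nonneg _) (mem_univ j))
    (abs_nonneg V)

/-- the hypotheses of the local limit theorem hold -/
theorem LHp (hP : S_POSV) (hZ : S_LZB) (hE : Run7.h291.WN.S_EQC) {d : ℝ → ℝ} (hd : Ad d) {h : ℝ → Fin m → ℝ}
    (w : Fin m → ℝ) {c : ℝ} (hc : 0 < c)
    (hq : ∀ᶠ T : ℝ in atTop, c * Real.log (1 / d T) ≤ qf (d T) (h T) w)
    (V : ℝ) {D : ℝ} {N : ℝ → Set ℝ} (hN : ∀ n, ∀ᶠ T : ℝ in atTop, Gd d h D n T (N T))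
    {r : ℝ → ℝ} {c1 : ℝ} (hc1 : 0 < c1) (hr : ∀ T, c1 ≤ r T)
    (hra : ∀ T, aV (cc fun j => V * w j) (cc fun j => V * w j) (h T) = r T) :
    LH (fun T => nuP (d T) (r T) T (h T) w V (N T)) (fun T ξ => ξ 0 ^ 2 * qf (d T) (h T) w)
      (fun T => Real.log (1 / d T)) c (((m : ℝ) + 1) * (∑ j, w j ^ 2) + 1) := by
  have hsm := small hd
  set W : ℝ := ∑ j, |w j| with hW
  have hW0 : 0 ≤ W := Finset.sum_nonneg fun j _ => abs_nonneg _
  have hwW : ∀ j, |w j| ≤ W := fun j =>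
    Finset.single_le_sum (f := fun i => |w i|) (fun i _ => abs_nonneg _) (mem_univ j)
  have hK0 : 0 ≤ |V| * W := by positivity
  have hw2 : 0 ≤ ∑ j, w j ^ 2 := Finset.sum_nonneg fun j _ => sq_nonneg _
  refine ⟨?_, hc, by positivity, log_tend hd, ?_, ?_, ?_⟩
  · filter_upwards [fin_nuV hd _ (abs_kw w V) hN hc1 hr hra] with T hT
    unfold nuP
    infer_instance
  · filter_upwards [hsm, hq] with T hT hqT
    have hL := log_inv_ge hT.1 hT.2.1
    refine ⟨by fun_prop, fun ξ => ?_, fun ξ => ?_⟩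
    · simp only [Finset.univ_unique, Fin.default_eq_zero, Finset.sum_singleton]
      have := mul_le_mul_of_nonneg_left hqT (sq_nonneg (ξ 0))
      linarith
    · simp only [Finset.univ_unique, Fin.default_eq_zero, Finset.sum_singleton]
      have h1 := qf_up hZ hT.1 hT.2.1 (h T) w
      have h2 := mul_le_mul_of_nonneg_left h1 (sq_nonneg (ξ 0))
      have h3 : 0 ≤ Real.log (1 / d T) * ξ 0 ^ 2 := mul_nonneg (by linarith) (sq_nonneg _)
      linarith
  · intro R hR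
    obtain ⟨B, hB0, hB⟩ := bdV hP hd (fun j => V * w j) (abs_kw w V) hK0 hN hc1 hr (R := R * (W + 1)) (by positivity)
    refine ⟨B, hB0, ?_⟩
    filter_upwards [hB] with T hT ξ hξ
    have h1 := hT (fun j => ξ 0 * w j) (fun j => by
      rw [abs_mul]
      exact mul_le_mul (hξ 0) ((hwW j).trans (by linarith)) (abs_nonneg _) hR.le)
    unfold nuP
    rw [cf_pj]
    rw [qf_smul] at h1
    exact h1
  · intro e he
    obtain ⟨η, hη, hN2⟩ := nearV hE hd (fun j => V * w j) (abs_kw w V) hK0 hN hc1 hr hra he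
    refine ⟨η / (W + 1), by positivity, ?_⟩
    filter_upwards [hN2] with T hT ξ hξ
    have h1 := hT (fun j => ξ 0 * w j) (fun j => by
      rw [abs_mul]
      have h2 := mul_le_mul (hξ 0) ((hwW j).trans (by linarith : W ≤ W + 1)) (abs_nonneg _) (by positivity)
      rwa [div_mul_cancel₀ _ (by positivity : W + 1 ≠ 0)] at h2)
    unfold nuP
    rw [cf_pj]
    rw [qf_smul] at h1
    exact h1

end Run7.h42.TP
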