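import Pool.Agent.Run7.h42.TP.Tst
import Pool.Agent.N748.MG.LLT

set_option autoImplicit false

/-!
# Truncated moments of products of zetas at arbitrary shifts (helper42): the central limit theorem
-/

namespace Run7.h42.TP

open Finset Filter MeasureTheory Topology Complex
open Pool.Agent.N748.MG Pool.Agent.N748.MJ
open Pool.Agent.N748.MJ.SM (cc)
open Run7.h42.LP Run7.h42.LB
open ProbabilityTheory (gaussianReal)

variable {ν : ℝ → Measure (Fin 1 → ℝ)} {Λ L : ℝ → ℝ} {c C : ℝ}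

lemma cf_one (κ : Measure (Fin 1 → ℝ)) (s : ℝ) : cf κ (fun _ => s) = ∫ x, cexp (s * (x 0) * I) ∂κ := by
  unfold cf ee
  refine integral_congr_ae (Eventually.of_forall fun x => ?_)
  simp only [Finset.univ_unique, Fin.default_eq_zero, Finset.sum_singleton]
  push_cast
  rfl

/-- the characteristic functions at the scale of the standard deviation -/
theorem cf_lim (H : LH ν (fun T ξ => ξ 0 ^ 2 * Λ T) L c C) (hΛ : Tendsto Λ atTop atTop) (t : ℝ) :
    Tendsto (fun T => cf (ν T) (fun _ => t / Real.sqrt (Λ T / 2))) atTop (𝓝 (Real.exp (-(t ^ 2 / 2)) : ℂ)) := by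
  rw [Metric.tendsto_nhds]
  intro ε hε
  have hG0 : 0 < Real.exp (-(t ^ 2 / 2)) := Real.exp_pos _
  have hG1 : Real.exp (-(t ^ 2 / 2)) ≤ 1 := Real.exp_le_one_iff.2 (by nlinarith [sq_nonneg t])
  obtain ⟨r, hr, hn⟩ := H.near (ε / 2) (by positivity)
  have h1 : Tendsto (fun T : ℝ => t / Real.sqrt (Λ T / 2)) atTop (𝓝 0) := by
    have h2 : Tendsto (fun T : ℝ => Real.sqrt (Λ T / 2)) atTop atTop :=
      Real.tendsto_sqrt_atTop.comp (hΛ.atTop_div_const (by norm_num))
    exact h2.const_div_atTop t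
  have h3 := h1.abs
  rw [abs_zero] at h3
  filter_upwards [hn, h3.eventually_le_const hr, hΛ.eventually_gt_atTop 0] with T a1 a2 a3
  have a4 := a1 (fun _ => t / Real.sqrt (Λ T / 2)) (fun _ => a2)
  have e : (t / Real.sqrt (Λ T / 2)) ^ 2 * Λ T / 4 = t ^ 2 / 2 := by
    rw [div_pow, Real.sq_sqrt (by positivity)]
    field_simp
    norm_num
  simp only [e] at a4
  rw [dist_eq_norm]
  refine lt_of_le_of_lt a4 ?_
  nlinarith

/-- the central limit theorem -/
theorem clt1 (H : LH ν (fun T ξ => ξ 0 ^ 2 * Λ T) L c C) (hΛ : Tendsto Λ atTop atTop) (f : ℝ → ℝ) (S : Finset ℝ)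
    (hf : Measurable f) (hfc : ∀ x, x ∉ S → ContinuousAt f x) (B : ℝ) (hB : ∀ x, |f x| ≤ B) :
    Tendsto (fun T : ℝ => ∫ x, f (x 0 / Real.sqrt (Λ T / 2)) ∂(ν T)) atTop (𝓝 (∫ x, f x ∂(gaussianReal 0 1))) := by
  refine tendsto_of_seq_tendsto fun u hu => ?_
  obtain ⟨M, hM⟩ := eventually_atTop.mp (hu.eventually H.fin)
  rw [← tendsto_add_atTop_iff_nat M]
  have hg : ∀ T : ℝ, Measurable (fun x : Fin 1 → ℝ => x 0 / Real.sqrt (Λ T / 2)) := fun T =>
    (measurable_pi_apply 0).div_const _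
  let μ : ℕ → FiniteMeasure ℝ := fun n => ⟨(ν (u (n + M))).map
    (fun x : Fin 1 → ℝ => x 0 / Real.sqrt (Λ (u (n + M)) / 2)),
    @Measure.isFiniteMeasure_map _ _ _ _ _ (hM (n + M) (Nat.le_add_left _ _)) _⟩
  let μ' : FiniteMeasure ℝ := ⟨gaussianReal 0 1, inferInstance⟩
  have hμi : ∀ {E : Type} [NormedAddCommGroup E] [NormedSpace ℝ E] (g : ℝ → E) (n : ℕ), StronglyMeasurable g →
      ∫ x, g x ∂(μ n : Measure ℝ) = ∫ x, g (x 0 / Real.sqrt (Λ (u (n + M)) / 2)) ∂(ν (u (n + M))) := by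
    intro E _ _ g n hg'
    show ∫ x, g x ∂((ν (u (n + M))).map (fun x : Fin 1 → ℝ => x 0 / Real.sqrt (Λ (u (n + M)) / 2))) = _
    rw [integral_map (hg _).aemeasurable hg'.aestronglyMeasurable]
  have hμ'0 : μ' ≠ 0 := by
    intro h0
    have h1 : (gaussianReal 0 1 : Measure ℝ) = 0 := by
      have : (μ' : Measure ℝ) = 0 := by rw [h0]; rfl
      exact this
    exact IsProbabilityMeasure.ne_zero _ h1
  have hw : Tendsto μ atTop (𝓝 μ') := by
    refine LLT.fm_tendsto μ μ' hμ'0 fun t => ?_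
    have h1 : ∀ n, ∫ x, Complex.exp (t * x * I) ∂(μ n : Measure ℝ) =
        cf (ν (u (n + M))) (fun _ => t / Real.sqrt (Λ (u (n + M)) / 2)) := by
      intro n
      rw [hμi _ n (by
        have : Continuous (fun x : ℝ => Complex.exp (t * x * I)) := by fun_prop
        exact this.stronglyMeasurable), cf_one]
      refine integral_congr_ae (Eventually.of_forall fun x => ?_)
      simp only
      congr 1
      push_cast
      ring
    have h2 : ∫ x, Complex.exp (t * x * I) ∂(μ' : Measure ℝ) = (Real.exp (-(t ^ 2 / 2)) : ℂ) := by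
      show ∫ x, Complex.exp (t * x * I) ∂(gaussianReal 0 1) = _
      rw [← charFun_apply_real, ProbabilityTheory.charFun_gaussianReal]
      push_cast
      congr 1
      ring
    simp_rw [h1, h2]
    have h3 := (cf_lim H hΛ t).comp hu
    exact (tendsto_add_atTop_iff_nat (f := fun n => cf (ν (u n)) (fun _ => t / Real.sqrt (Λ (u n) / 2))) M).mpr h3
  have hSnull : ∀ᵐ x ∂(μ' : Measure ℝ), x ∉ S := by
    show ∀ᵐ x ∂(gaussianReal 0 1), x ∉ S
    have : NullSingletonClass (gaussianReal 0 1) := ProbabilityTheory.nullSingletonClass_gaussianReal one_ne_zero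
    have h2 : ∀ᵐ x : ℝ ∂(gaussianReal 0 1), x ∉ (S : Set ℝ) := by
      rw [ae_iff]
      simp only [not_not, Set.ofPred_mem_eq]
      exact S.finite_toSet.measure_zero _
    filter_upwards [h2] with x hx
    exact hx
  have h6 := LLT.fm_disc μ μ' hw f S hf hfc B hB hSnull
  refine h6.congr fun n => ?_
  exact hμi f n hf.stronglyMeasurable

/-- the indicator of a half line -/
noncomputable def il (x y : ℝ) : ℝ := if y ≤ x then 1 else 0

lemma il_meas (x : ℝ) : Measurable (il x) :=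
  Measurable.ite (measurableSet_le measurable_id measurable_const) measurable_const measurable_const

lemma il_abs (x y : ℝ) : |il x y| ≤ 1 := by
  unfold il
  split_ifs <;> norm_num

lemma il_nn (x y : ℝ) : 0 ≤ il x y := by
  unfold il
  split_ifs <;> norm_num

lemma il_le (x y : ℝ) : il x y ≤ 1 := (le_abs_self _).trans (il_abs x y)

lemma il_cont {x y : ℝ} (hy : y ≠ x) : ContinuousAt (il x) y := by
  rcases lt_or_gt_of_ne hy with h | h
  · have h2 : il x =ᶠ[𝓝 y] fun _ => 1 := by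
      filter_upwards [gt_mem_nhds h] with z hz
      unfold il
      rw [if_pos hz.le]
    exact (continuousAt_const (y := (1:ℝ))).congr h2.symm
  · have h2 : il x =ᶠ[𝓝 y] fun _ => 0 := by
      filter_upwards [lt_mem_nhds h] with z hz
      unfold il
      rw [if_neg (not_le.2 hz)]
    exact (continuousAt_const (y := (0:ℝ))).congr h2.symm

lemma il_phi (x : ℝ) : ∫ y, il x y ∂(gaussianReal 0 1) = Phi x := by
  have e : il x = (Set.Iic x).indicator (fun _ => (1:ℝ)) := by
    funext y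
    unfold il Set.indicator
    simp only [Set.mem_Iic]
  rw [e]
  exact integral_indicator_one (μ := gaussianReal 0 1) measurableSet_Iic

/-- the distribution at the scale of the standard deviation -/
theorem clt2 (H : LH ν (fun T ξ => ξ 0 ^ 2 * Λ T) L c C) (hΛ : Tendsto Λ atTop atTop) (x : ℝ) :
    Tendsto (fun T : ℝ => ∫ z, il (x * Real.sqrt (Λ T / 2)) (z 0) ∂(ν T)) atTop (𝓝 (Phi x)) := by
  have h1 := clt1 H hΛ (il x) {x} (il_meas x) (fun y hy => il_cont (by simpa using hy)) 1 (il_abs x)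
  rw [il_phi] at h1
  refine h1.congr' ?_
  filter_upwards [hΛ.eventually_gt_atTop 0] with T hT
  refine integral_congr_ae (Eventually.of_forall fun z => ?_)
  simp only
  unfold il
  have hs : 0 < Real.sqrt (Λ T / 2) := Real.sqrt_pos.2 (by positivity)
  by_cases hz : z 0 ≤ x * Real.sqrt (Λ T / 2)
  · rw [if_pos hz, if_pos ((div_le_iff₀ hs).2 hz)]
  · rw [if_neg hz, if_neg (fun h => hz ((div_le_iff₀ hs).1 h))]

/-- the masses tend to one -/
theorem mass (H : LH ν (fun T ξ => ξ 0 ^ 2 * Λ T) L c C) (hΛ : Tendsto Λ atTop atTop) :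
    Tendsto (fun T : ℝ => ∫ _z, (1:ℝ) ∂(ν T)) atTop (𝓝 1) := by
  have h1 := clt1 H hΛ (fun _ => 1) ∅ measurable_const (fun _ _ => continuousAt_const) 1 (fun _ => by simp)
  simpa using h1

lemma Phi_lim : Tendsto Phi atTop (𝓝 1) := by
  have h1 : Tendsto (fun x : ℝ => gaussianReal 0 1 (Set.Iic x)) atTop (𝓝 (gaussianReal 0 1 Set.univ)) := by
    rw [← Set.iUnion_Iic]
    exact tendsto_measure_iUnion_atTop (fun a b hab => Set.Iic_subset_Iic.2 hab)
  rw [measure_univ] at h1
  have h2 := (ENNReal.tendsto_toReal ENNReal.one_ne_top).comp h1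
  rw [ENNReal.toReal_one] at h2
  exact h2

/-- levels beyond the scale of the standard deviation -/
theorem far (H : LH ν (fun T ξ => ξ 0 ^ 2 * Λ T) L c C) (hΛ : Tendsto Λ atTop atTop) {a : ℝ} (ha : 0 < a) :
    Tendsto (fun T : ℝ => ∫ z, il (a * Λ T) (z 0) ∂(ν T)) atTop (𝓝 1) := by
  have hi : ∀ᶠ T in atTop, ∀ x : ℝ, Integrable (fun z : Fin 1 → ℝ => il x (z 0)) (ν T) := by
    filter_upwards [H.fin] with T hT x
    exact Integrable.of_bound ((il_meas x).comp (measurable_pi_apply 0)).aestronglyMeasurable 1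
      (Eventually.of_forall fun z => il_abs _ _)
  have hi1 : ∀ᶠ T in atTop, Integrable (fun _ : Fin 1 → ℝ => (1:ℝ)) (ν T) := by
    filter_upwards [H.fin] with T hT
    exact integrable_const _
  rw [Metric.tendsto_nhds]
  intro ε hε
  obtain ⟨x, hx⟩ : ∃ x : ℝ, 1 - ε / 2 < Phi x := by
    have h1 := Phi_lim.eventually (lt_mem_nhds (show 1 - ε / 2 < 1 by linarith))
    exact h1.exists
  have h1 := (clt2 H hΛ x).eventually (lt_mem_nhds hx)
  have h2 := (mass H hΛ).eventually (gt_mem_nhds (show (1:ℝ) < 1 + ε / 2 by linarith))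
  have h3 : ∀ᶠ T in atTop, x * Real.sqrt (Λ T / 2) ≤ a * Λ T := by
    have h4 : Tendsto (fun T : ℝ => Real.sqrt (Λ T / 2)) atTop atTop :=
      Real.tendsto_sqrt_atTop.comp (hΛ.atTop_div_const (by norm_num))
    filter_upwards [h4.eventually_ge_atTop (|x| / (2 * a)), hΛ.eventually_gt_atTop 0] with T b1 b2
    have hs : Real.sqrt (Λ T / 2) * Real.sqrt (Λ T / 2) = Λ T / 2 := Real.mul_self_sqrt (by positivity)
    have hs0 : 0 ≤ Real.sqrt (Λ T / 2) := Real.sqrt_nonneg _
    rw [div_le_iff₀ (by positivity)] at b1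
    have b3 := mul_le_mul_of_nonneg_right b1 hs0
    have b4 := mul_le_mul_of_nonneg_right (le_abs_self x) hs0
    nlinarith
  filter_upwards [h1, h2, h3, hi, hi1] with T a1 a2 a3 a4 a5
  have k1 : ∫ z, il (x * Real.sqrt (Λ T / 2)) (z 0) ∂(ν T) ≤ ∫ z, il (a * Λ T) (z 0) ∂(ν T) := by
    refine integral_mono (a4 _) (a4 _) fun z => ?_
    show il (x * Real.sqrt (Λ T / 2)) (z 0) ≤ il (a * Λ T) (z 0)
    unfold il
    by_cases hz : z 0 ≤ x * Real.sqrt (Λ T / 2)
    · rw [if_pos hz, if_pos (hz.trans a3)]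
    · rw [if_neg hz]
      split_ifs <;> norm_num
  have k2 : ∫ z, il (a * Λ T) (z 0) ∂(ν T) ≤ ∫ _z, (1:ℝ) ∂(ν T) :=
    integral_mono (a4 _) a5 fun z => il_le _ _
  rw [Real.dist_eq, abs_lt]
  constructor <;> linarith

end Run7.h42.TP
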