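import Pool.Agent.Run7.h42.TP.Trn

set_option autoImplicit false

/-!
# Truncated moments of products of zetas at arbitrary shifts (helper42): lower bounds for the variance
-/

namespace Run7.h42.TP

open Finset Filter MeasureTheory Topology Complex
open Pool.Agent.N748.MG Pool.Agent.N748.MJ
open Pool.Agent.N748.MJ.SM (cc)
open Run7.h42.LP Run7.h42.LB

variable {m : ℕ}

/-- zeta is bounded from below to the right of a segment of the line `Re s = 1` -/
theorem zeta_low (U : ℝ) (hU : 0 ≤ U) : ∃ c : ℝ, 0 < c ∧ ∀ x u : ℝ, 0 < x → x ≤ 1 / 8 → |u| ≤ U →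
    c ≤ ‖riemannZeta (((1 + x : ℝ) : ℂ) + u * I)‖ := by
  set φ : ℂ → ℂ := Function.update (fun s => (s - 1) * riemannZeta s) 1 1 with hφ
  have hc : Continuous φ := by
    rw [continuous_iff_continuousAt]
    intro s
    rcases eq_or_ne s 1 with rfl | hs
    · rw [hφ, continuousAt_update_same]
      exact riemannZeta_residue_one
    · rw [hφ, continuousAt_update_of_ne hs]
      exact (continuousAt_id.sub continuousAt_const).mul (differentiableAt_riemannZeta hs).continuousAt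
  have hs : Continuous fun p : ℝ × ℝ => (((1 + p.1 : ℝ) : ℂ) + (p.2 : ℂ) * I) := by fun_prop
  have hg : Continuous fun p : ℝ × ℝ => ‖φ (((1 + p.1 : ℝ) : ℂ) + (p.2 : ℂ) * I)‖ := by
    have := Continuous.comp hc hs
    exact this.norm
  have hK : IsCompact (Set.Icc (0:ℝ) (1 / 8) ×ˢ Set.Icc (-U) U) := isCompact_Icc.prod isCompact_Icc
  have hne : (Set.Icc (0:ℝ) (1 / 8) ×ˢ Set.Icc (-U) U).Nonempty :=
    ⟨(0, 0), ⟨le_rfl, by norm_num⟩, ⟨by linarith, hU⟩⟩
  obtain ⟨p, hp, hmin⟩ := hK.exists_isMinOn hne hg.continuousOn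
  have hp0 : 0 < ‖φ (((1 + p.1 : ℝ) : ℂ) + (p.2 : ℂ) * I)‖ := by
    rw [norm_pos_iff]
    by_cases h1 : (((1 + p.1 : ℝ) : ℂ) + (p.2 : ℂ) * I) = 1
    · rw [h1, hφ, Function.update_self]
      exact one_ne_zero
    · rw [hφ, Function.update_of_ne h1]
      refine mul_ne_zero (sub_ne_zero.2 h1) (riemannZeta_ne_zero_of_one_le_re ?_)
      have : 0 ≤ p.1 := hp.1.1
      simp
      exact this
  refine ⟨‖φ (((1 + p.1 : ℝ) : ℂ) + (p.2 : ℂ) * I)‖ / (1 / 8 + U), by positivity, fun x u hx hx1 hu => ?_⟩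
  have h2 : ‖φ (((1 + p.1 : ℝ) : ℂ) + (p.2 : ℂ) * I)‖ ≤ ‖φ (((1 + x : ℝ) : ℂ) + (u : ℂ) * I)‖ :=
    hmin (show (x, u) ∈ Set.Icc (0:ℝ) (1 / 8) ×ˢ Set.Icc (-U) U from ⟨⟨hx.le, hx1⟩, abs_le.1 hu⟩)
  have h1 : (((1 + x : ℝ) : ℂ) + (u : ℂ) * I) ≠ 1 := by
    intro h
    have := congrArg Complex.re h
    simp at this
    linarith
  rw [div_le_iff₀ (by positivity)]
  refine h2.trans ?_
  rw [hφ, Function.update_of_ne h1, norm_mul, mul_comm]
  refine mul_le_mul_of_nonneg_left ?_ (norm_nonneg _)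
  have e : (((1 + x : ℝ) : ℂ) + (u : ℂ) * I) - 1 = (x : ℂ) + (u : ℂ) * I := by
    push_cast
    ring
  rw [e]
  refine (norm_add_le _ _).trans ?_
  rw [norm_mul, Complex.norm_I, mul_one, Complex.norm_real, Complex.norm_real, Real.norm_eq_abs, Real.norm_eq_abs,
    abs_of_pos hx]
  linarith

/-- the covariances are bounded from below -/
lemma RL_low (hZ : S_LZB) (U : ℝ) (hU : 0 ≤ U) : ∃ C : ℝ, 0 ≤ C ∧ ∀ (δ : ℝ) (h : Fin m → ℝ) (j l : Fin m),
    0 < δ → δ ≤ 1 / 16 → |h j - h l| ≤ U → -C ≤ RL δ h j l := by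
  obtain ⟨c, hc, hz⟩ := zeta_low U hU
  refine ⟨|Real.log c|, abs_nonneg _, fun δ h j l h0 h1 hu => ?_⟩
  rw [RL_log hZ h0 h1]
  have h2 := hz (2 * δ) (h j - h l) (by linarith) (by linarith) hu
  have h3 := Real.log_le_log hc h2
  exact (neg_abs_le _).trans h3

/-- the diagonal covariance -/
lemma RL_diag (hZ : S_LZB) {d : ℝ → ℝ} (hd : Ad d) : ∀ᶠ T in atTop, ∀ (h : Fin m → ℝ) (j : Fin m),
    LL (d T) - 1 ≤ RL (d T) h j j := by
  have h1 := r1_lim (m := 1) hZ hd (fun _ => 0) 0 0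
  rw [ss_self] at h1
  filter_upwards [h1.eventually_le_const (show (0:ℝ) < 1 by norm_num)] with T hT h j
  unfold r1 RL sh at hT
  unfold RL
  rw [sub_self] at hT ⊢
  linarith

lemma LL_eq {δ : ℝ} (h0 : 0 < δ) : LL δ = Real.log (1 / δ) - Real.log 2 := by
  unfold LL
  rw [one_div, one_div, Real.log_inv, Real.log_inv, Real.log_mul (by norm_num) h0.ne']
  ring

/-- the variance is of the order of the logarithm for nonnegative weights and bounded differences of the shifts -/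
theorem nondeg (hZ : S_LZB) {d : ℝ → ℝ} (hd : Ad d) (h : ℝ → Fin m → ℝ) (w : Fin m → ℝ) (hw : ∀ j, 0 ≤ w j)
    (hw0 : ∃ j, 0 < w j) {U : ℝ} (hU : ∀ᶠ T : ℝ in atTop, ∀ j l, |h T j - h T l| ≤ U) :
    ∃ c : ℝ, 0 < c ∧ ∀ᶠ T : ℝ in atTop, c * Real.log (1 / d T) ≤ qf (d T) (h T) w := by
  have hU' : ∀ᶠ T : ℝ in atTop, ∀ j l, |h T j - h T l| ≤ max U 0 := by
    filter_upwards [hU] with T hT j l
    exact (hT j l).trans (le_max_left _ _)
  obtain ⟨C, hC0, hC⟩ := RL_low (m := m) hZ (max U 0) (le_max_right _ _)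
  obtain ⟨i, hi⟩ := hw0
  refine ⟨w i ^ 2 / 2, by positivity, ?_⟩
  set B : ℝ := (∑ j, ∑ l, w j * w l) * C with hB
  have hlim := log_tend hd
  have h9 := hlim.eventually_ge_atTop (2 * (Real.log 2 + 1 + B / w i ^ 2))
  filter_upwards [small hd, hU', RL_diag (m := m) hZ hd, h9] with T hT h1 h2 h3
  obtain ⟨h0, h01, -⟩ := hT
  have hL2 : 0 < Real.log 2 := Real.log_pos (by norm_num)
  have hB0 : 0 ≤ B := mul_nonneg (Finset.sum_nonneg fun j _ => Finset.sum_nonneg fun l _ => mul_nonneg (hw j) (hw l)) hC0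
  have hwi : 0 < w i ^ 2 := by positivity
  have e0 : 0 ≤ B / w i ^ 2 := div_nonneg hB0 hwi.le
  have e1 : w i ^ 2 * (RL (d T) (h T) i i) + w i ^ 2 * C - B ≤ qf (d T) (h T) w := by
    -- all the terms `w j w l (RL + C)` are nonnegative
    have k1 : ∀ j l, 0 ≤ w j * w l * (RL (d T) (h T) j l + C) := fun j l =>
      mul_nonneg (mul_nonneg (hw j) (hw l)) (by
        have := hC (d T) (h T) j l h0 h01 (h1 j l)
        linarith)
    have k2 : w i * w i * (RL (d T) (h T) i i + C) ≤ ∑ j, ∑ l, w j * w l * (RL (d T) (h T) j l + C) := by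
      refine le_trans ?_ (Finset.single_le_sum (f := fun j => ∑ l, w j * w l * (RL (d T) (h T) j l + C))
        (fun j _ => Finset.sum_nonneg fun l _ => k1 j l) (mem_univ i))
      exact Finset.single_le_sum (f := fun l => w i * w l * (RL (d T) (h T) i l + C))
        (fun l _ => k1 i l) (mem_univ i)
    have k3 : ∑ j, ∑ l, w j * w l * (RL (d T) (h T) j l + C) = qf (d T) (h T) w + B := by
      unfold qf
      rw [hB, Finset.sum_mul, ← Finset.sum_add_distrib]
      refine Finset.sum_congr rfl fun j _ => ?_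
      rw [Finset.sum_mul, ← Finset.sum_add_distrib]
      exact Finset.sum_congr rfl fun l _ => by ring
    rw [k3] at k2
    nlinarith
  have e2 := h2 (h T) i
  rw [LL_eq h0] at e2
  have e3 : B = w i ^ 2 * (B / w i ^ 2) := by field_simp
  have e4 := mul_le_mul_of_nonneg_left h3 hwi.le
  have e5 := mul_le_mul_of_nonneg_left e2 hwi.le
  have e6 : 0 ≤ w i ^ 2 * C := by positivity
  nlinarith

end Run7.h42.TP
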