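import Pool.Agent.Run7.h42.TP.Clt

set_option autoImplicit false

/-!
# Truncated moments of products of zetas at arbitrary shifts (helper42): the truncated moments
-/

namespace Run7.h42.TP

open Finset Filter MeasureTheory Topology Complex
open Pool.Agent.N748.MG Pool.Agent.N748.MJ
open Pool.Agent.N748.MJ.SM (cc)
open Run7.h42.LP Run7.h42.LB

variable {m : ℕ}

/-- the truncated moment -/
noncomputable def TM (δ : ℝ) (h w : Fin m → ℝ) (k y T : ℝ) : ℝ :=
  (1 / T) * ∫ t in {t : ℝ | 0 ≤ t ∧ t ≤ T ∧ Yw δ h w t ≤ y}, Real.exp (2 * k * Yw δ h w t)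

/-- the integral over a sublevel set -/
lemma int_sub {T : ℝ} (hT : 0 ≤ T) {f : ℝ → ℝ} (hf : Measurable f) (y : ℝ) (G : ℝ → ℝ) :
    ∫ t in {t : ℝ | 0 ≤ t ∧ t ≤ T ∧ f t ≤ y}, G t = ∫ t in (0:ℝ)..T, il y (f t) * G t := by
  set A : Set ℝ := {t | f t ≤ y} with hA
  have hAm : MeasurableSet A := measurableSet_le hf measurable_const
  have e1 : (fun t => il y (f t) * G t) = A.indicator G := by
    funext t
    unfold il Set.indicator
    by_cases hh : f t ≤ y
    · rw [if_pos hh, if_pos (by exact hh), one_mul]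
    · rw [if_neg hh, if_neg (by exact hh), zero_mul]
  rw [e1, intervalIntegral.integral_of_le hT, ← integral_Icc_eq_integral_Ioc, setIntegral_indicator hAm]
  congr 2
  ext t
  simp only [hA, Set.mem_inter_iff, Set.mem_Icc, Set.mem_ofPred_eq]
  tauto

/-- the reduction of the truncated moments to the measures -/
theorem redT (hJ : S_JM) (hP : S_POSV) (hZ : S_LZB) (hE : Run7.h291.WN.S_EQC) {d : ℝ → ℝ} (hd : Ad d)
    {h : ℝ → Fin m → ℝ} (hh : ∀ᶠ T : ℝ in atTop, ∀ j, |h T j| ≤ T ^ ((1:ℝ) / 2)) (w : Fin m → ℝ) {c : ℝ} (hc : 0 < c)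
    (hq : ∀ᶠ T : ℝ in atTop, c * Real.log (1 / d T) ≤ qf (d T) (h T) w) {k : ℝ} (hk : 0 < k)
    (y : ℝ → ℝ) {V : ℝ} (hV : 0 ≤ V) (hy : ∀ᶠ T : ℝ in atTop, y T ≤ V * qf (d T) (h T) w) :
    ∃ ν : ℝ → Measure (Fin 1 → ℝ),
      LH ν (fun T ξ => ξ 0 ^ 2 * qf (d T) (h T) w) (fun T => Real.log (1 / d T)) c
        (((m : ℝ) + 1) * (∑ j, w j ^ 2) + 1) ∧
      Tendsto (fun T : ℝ => Real.exp (-(k ^ 2 * qf (d T) (h T) w)) /
          (aV (cc fun j => k * w j) (cc fun j => k * w j) (h T)).re * TM (d T) (h T) w k (y T) T -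
        ∫ z, il (y T - k * qf (d T) (h T) w) (z 0) ∂(ν T)) atTop (𝓝 0) := by
  set C : ℝ := ((m : ℝ) + 1) * (∑ j, w j ^ 2) + 1 with hC
  have hw2 : 0 ≤ ∑ j, w j ^ 2 := Finset.sum_nonneg fun j _ => sq_nonneg _
  have hC0 : 0 < C := by positivity
  set D : ℝ := 2 * k * V * C + 1 with hD
  obtain ⟨r, c1, N, hc1, hr, hra, hN, H⟩ := setup hJ hP hZ hE hd hh w hc hq k (D := D) (by positivity)
  have hsm := small hd
  have hΛ : ∀ᶠ T : ℝ in atTop, 0 < qf (d T) (h T) w := by
    filter_upwards [hq, hsm] with T hT hT2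
    have := log_inv_ge hT2.1 hT2.2.1
    exact lt_of_lt_of_le (by nlinarith) hT
  refine ⟨_, H, ?_⟩
  -- the integrand
  set G : ℝ → ℝ → ℝ := fun T t => il (y T) (Yw (d T) (h T) w t) * Real.exp (2 * k * Yw (d T) (h T) w t) with hG
  have hGb : ∀ᶠ T : ℝ in atTop, ∀ t, ‖G T t‖ ≤ Real.exp (2 * k * V * qf (d T) (h T) w) := by
    filter_upwards [hy] with T hT t
    rw [hG]
    simp only
    rw [norm_mul, Real.norm_of_nonneg (il_nn _ _), Real.norm_of_nonneg (Real.exp_pos _).le]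
    unfold il
    split_ifs with h1
    · rw [one_mul]
      apply Real.exp_le_exp.2
      have h2 := mul_le_mul_of_nonneg_left (h1.trans hT) (by positivity : 0 ≤ 2 * k)
      linarith
    · rw [zero_mul]
      exact (Real.exp_pos _).le
  set E : ℝ → ℝ := fun T => Real.exp (-(k ^ 2 * qf (d T) (h T) w)) / r T *
    ((1 / T) * ∫ t in Set.Icc 0 T \ N T, G T t) with hEd
  have hE0 : Tendsto E atTop (𝓝 0) := by
    have hb : ∀ᶠ T : ℝ in atTop, ‖E T‖ ≤ 1 / c1 * d T := by
      filter_upwards [hN 0, hsm, hΛ, hGb] with T hT hT2 hΛT hGT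
      obtain ⟨h0, h1, hT1⟩ := hT2
      have hT0 : 0 < T := by linarith
      have hr0 : 0 < r T := lt_of_lt_of_le hc1 (hr T)
      have h4 := exp_q_le hZ h0 h1 (h T) w (A := 2 * k * V) (by positivity)
      have h2 : ‖∫ t in Set.Icc 0 T \ N T, G T t‖ ≤ d T ^ (-(2 * k * V * C)) * (d T ^ D * T) := by
        have hfin : volume (Set.Icc 0 T \ N T) < ⊤ := lt_of_le_of_lt hT.vol ENNReal.ofReal_lt_top
        refine (norm_setIntegral_le_of_norm_le_const (C := d T ^ (-(2 * k * V * C))) hfin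
          fun t _ => (hGT t).trans h4).trans ?_
        refine mul_le_mul_of_nonneg_left ?_ (by positivity)
        have h3 := ENNReal.toReal_mono ENNReal.ofReal_ne_top hT.vol
        rw [ENNReal.toReal_ofReal (by positivity)] at h3
        exact h3
      have h5 : Real.exp (-(k ^ 2 * qf (d T) (h T) w)) ≤ 1 := Real.exp_le_one_iff.2 (by
        have := mul_nonneg (sq_nonneg k) hΛT.le
        linarith)
      have hpow : d T ^ (-(2 * k * V * C)) * d T ^ D = d T := by
        rw [← Real.rpow_add h0, hD, show -(2 * k * V * C) + (2 * k * V * C + 1) = 1 by ring, Real.rpow_one]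
      rw [hEd]
      simp only
      rw [norm_mul, norm_mul, norm_div, Real.norm_of_nonneg (Real.exp_pos _).le,
        Real.norm_of_nonneg hr0.le, Real.norm_of_nonneg (by positivity : (0 : ℝ) ≤ 1 / T)]
      calc Real.exp (-(k ^ 2 * qf (d T) (h T) w)) / r T * (1 / T * ‖∫ t in Set.Icc 0 T \ N T, G T t‖)
          ≤ 1 / c1 * (1 / T * (d T ^ (-(2 * k * V * C)) * (d T ^ D * T))) := by
            gcongr
            exact hr T
        _ = 1 / c1 * (d T ^ (-(2 * k * V * C)) * d T ^ D) := by field_simp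
        _ = 1 / c1 * d T := by rw [hpow]
    have h0 : Tendsto (fun T : ℝ => 1 / c1 * d T) atTop (𝓝 0) := by
      have h1 := hd.t0.const_mul (1 / c1)
      rwa [mul_zero] at h1
    exact squeeze_zero_norm' hb h0
  refine hE0.congr' ?_
  filter_upwards [hN 0, hsm, hΛ, hGb] with T hT hT2 hΛT hGT
  obtain ⟨h0, h1, hT1⟩ := hT2
  have hT0 : 0 < T := by linarith
  have hr0 : 0 < r T := lt_of_lt_of_le hc1 (hr T)
  have hYm := Yw_meas h0 h1 (h T) w
  have hGm : Measurable (G T) :=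
    ((il_meas (y T)).comp hYm).mul (Real.measurable_exp.comp (hYm.const_mul _))
  have hint : IntegrableOn (G T) (Set.Icc 0 T) volume := by
    refine Measure.integrableOn_of_bounded (M := Real.exp (2 * k * V * qf (d T) (h T) w)) ?_ hGm.aestronglyMeasurable
      (Eventually.of_forall fun t => hGT t)
    rw [Real.volume_Icc]
    exact ENNReal.ofReal_ne_top
  have hsplit : ∫ t in (0 : ℝ)..T, G T t = (∫ t in N T, G T t) + ∫ t in Set.Icc 0 T \ N T, G T t := by
    rw [intervalIntegral.integral_of_le hT0.le, ← integral_Icc_eq_integral_Ioc]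
    have h2 := setIntegral_union (μ := volume) (f := G T)
      (Set.disjoint_sdiff_right (s := N T) (t := Set.Icc 0 T))
      (measurableSet_Icc.diff hT.meas) (hint.mono_set hT.sub) (hint.mono_set Set.sdiff_subset)
    rw [Set.union_sdiff_cancel hT.sub] at h2
    exact h2
  have h3 := int_nuP h0 h1 hr0 hT0 (h T) w k hT.meas hT.nz (il_meas (y T - k * qf (d T) (h T) w))
  have h4 : ∫ t in N T, Real.exp (2 * k * Yw (d T) (h T) w t) *
      il (y T - k * qf (d T) (h T) w) (Yw (d T) (h T) w t - k * qf (d T) (h T) w) = ∫ t in N T, G T t := by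
    refine integral_congr_ae (Eventually.of_forall fun t => ?_)
    simp only [hG]
    rw [mul_comm]
    congr 1
    unfold il
    by_cases hz : Yw (d T) (h T) w t ≤ y T
    · rw [if_pos hz, if_pos (by linarith)]
    · rw [if_neg hz, if_neg (fun h => hz (by linarith))]
  rw [h4] at h3
  rw [hEd]
  simp only
  rw [h3, hra T]
  unfold TM
  rw [int_sub hT0.le hYm (y T) (fun t => Real.exp (2 * k * Yw (d T) (h T) w t))]
  have h5 : ∫ t in (0:ℝ)..T, il (y T) (Yw (d T) (h T) w t) * Real.exp (2 * k * Yw (d T) (h T) w t) =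
      ∫ t in (0:ℝ)..T, G T t := rfl
  rw [h5, hsplit]
  ring

lemma qf_tend {d : ℝ → ℝ} (hd : Ad d) {h : ℝ → Fin m → ℝ} (w : Fin m → ℝ) {c : ℝ} (hc : 0 < c)
    (hq : ∀ᶠ T : ℝ in atTop, c * Real.log (1 / d T) ≤ qf (d T) (h T) w) :
    Tendsto (fun T => qf (d T) (h T) w) atTop atTop :=
  tendsto_atTop_mono' _ hq ((log_tend hd).const_mul_atTop hc)

/-- the critical level -/
theorem crit (hJ : S_JM) (hP : S_POSV) (hZ : S_LZB) (hE : Run7.h291.WN.S_EQC) {d : ℝ → ℝ} (hd : Ad d)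
    {h : ℝ → Fin m → ℝ} (hh : ∀ᶠ T : ℝ in atTop, ∀ j, |h T j| ≤ T ^ ((1:ℝ) / 2)) (w : Fin m → ℝ) {c : ℝ} (hc : 0 < c)
    (hq : ∀ᶠ T : ℝ in atTop, c * Real.log (1 / d T) ≤ qf (d T) (h T) w) {k : ℝ} (hk : 0 < k) (x : ℝ) :
    Tendsto (fun T : ℝ => Real.exp (-(k ^ 2 * qf (d T) (h T) w)) /
      (aV (cc fun j => k * w j) (cc fun j => k * w j) (h T)).re *
        TM (d T) (h T) w k (k * qf (d T) (h T) w + x * Real.sqrt (qf (d T) (h T) w / 2)) T) atTop (𝓝 (Phi x)) := by
  have hΛ := qf_tend hd w hc hq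
  obtain ⟨ν, H, h1⟩ := redT hJ hP hZ hE hd hh w hc hq hk
    (fun T => k * qf (d T) (h T) w + x * Real.sqrt (qf (d T) (h T) w / 2)) (V := k + |x|) (by positivity) (by
      filter_upwards [hΛ.eventually_ge_atTop 1] with T hT
      have h1 : Real.sqrt (qf (d T) (h T) w / 2) ≤ qf (d T) (h T) w := by
        rw [Real.sqrt_le_left (by linarith)]
        nlinarith
      have h2 : x * Real.sqrt (qf (d T) (h T) w / 2) ≤ |x| * qf (d T) (h T) w :=
        mul_le_mul (le_abs_self x) h1 (Real.sqrt_nonneg _) (abs_nonneg x)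
      linarith)
  have h2 := clt2 H hΛ x
  have h3 := h1.add h2
  rw [zero_add] at h3
  refine h3.congr fun T => ?_
  simp only [add_sub_cancel_left]
  ring

/-- levels above the critical one -/
theorem supr (hJ : S_JM) (hP : S_POSV) (hZ : S_LZB) (hE : Run7.h291.WN.S_EQC) {d : ℝ → ℝ} (hd : Ad d)
    {h : ℝ → Fin m → ℝ} (hh : ∀ᶠ T : ℝ in atTop, ∀ j, |h T j| ≤ T ^ ((1:ℝ) / 2)) (w : Fin m → ℝ) {c : ℝ} (hc : 0 < c)
    (hq : ∀ᶠ T : ℝ in atTop, c * Real.log (1 / d T) ≤ qf (d T) (h T) w) {k V : ℝ} (hk : 0 < k) (hV : k < V) :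
    Tendsto (fun T : ℝ => Real.exp (-(k ^ 2 * qf (d T) (h T) w)) /
      (aV (cc fun j => k * w j) (cc fun j => k * w j) (h T)).re *
        TM (d T) (h T) w k (V * qf (d T) (h T) w) T) atTop (𝓝 1) := by
  have hΛ := qf_tend hd w hc hq
  obtain ⟨ν, H, h1⟩ := redT hJ hP hZ hE hd hh w hc hq hk
    (fun T => V * qf (d T) (h T) w) (V := V) (by linarith) (Eventually.of_forall fun T => le_rfl)
  have h2 := far H hΛ (a := V - k) (by linarith)
  have h3 := h1.add h2
  rw [zero_add] at h3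
  refine h3.congr fun T => ?_
  have e : V * qf (d T) (h T) w - k * qf (d T) (h T) w = (V - k) * qf (d T) (h T) w := by ring
  simp only [e]
  ring

lemma sub_bd {k V : ℝ} (hk : 0 < k) (hV : V < k) : ∃ M : ℝ, (∀ x : ℝ, |il 0 x * Real.exp (2 * k * x)| ≤ M) ∧
    ∀ x : ℝ, |il 0 x * Real.exp (2 * k * x)| * (1 + x ^ 2) ≤ M * Real.exp (2 * V * x) := by
  refine ⟨1 + 1 / (k - V) ^ 2, fun x => ?_, fun x => ?_⟩
  · rw [abs_of_nonneg (mul_nonneg (il_nn _ _) (Real.exp_pos _).le)]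
    unfold il
    have hp : 0 < 1 / (k - V) ^ 2 := by
      have : 0 < k - V := by linarith
      positivity
    split_ifs with h
    · rw [one_mul]
      have : Real.exp (2 * k * x) ≤ 1 := Real.exp_le_one_iff.2 (by nlinarith)
      linarith
    · rw [zero_mul]
      linarith
  · rw [abs_of_nonneg (mul_nonneg (il_nn _ _) (Real.exp_pos _).le)]
    unfold il
    have hkV : 0 < k - V := by linarith
    split_ifs with h
    · rw [one_mul]
      set u : ℝ := -((k - V) * x) with hu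
      have hu0 : 0 ≤ u := by
        rw [hu]
        nlinarith
      have hx : x ^ 2 = 1 / (k - V) ^ 2 * u ^ 2 := by
        rw [hu]
        field_simp
      have h5 := sq_le_exp hu0
      have h6 : 1 ≤ Real.exp (2 * u) := Real.one_le_exp (by linarith)
      have h7 : 1 + x ^ 2 ≤ (1 + 1 / (k - V) ^ 2) * Real.exp (2 * u) := by
        rw [hx]
        have := mul_le_mul_of_nonneg_left h5 (by positivity : 0 ≤ 1 / (k - V) ^ 2)
        linarith
      have h8 : Real.exp (2 * k * x) * Real.exp (2 * u) = Real.exp (2 * V * x) := by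
        rw [← Real.exp_add, hu]
        congr 1
        ring
      calc Real.exp (2 * k * x) * (1 + x ^ 2) ≤ Real.exp (2 * k * x) * ((1 + 1 / (k - V) ^ 2) * Real.exp (2 * u)) :=
            mul_le_mul_of_nonneg_left h7 (Real.exp_pos _).le
        _ = (1 + 1 / (k - V) ^ 2) * (Real.exp (2 * k * x) * Real.exp (2 * u)) := by ring
        _ = _ := by rw [h8]
    · rw [zero_mul, zero_mul]
      positivity

lemma sub_int {k V : ℝ} (hV : V < k) :
    ∫ x : ℝ, Real.exp (-(2 * V * x)) * (il 0 x * Real.exp (2 * k * x)) = 1 / (2 * (k - V)) := by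
  have e1 : (fun x : ℝ => Real.exp (-(2 * V * x)) * (il 0 x * Real.exp (2 * k * x))) =
      (Set.Iic (0:ℝ)).indicator (fun x => Real.exp ((2 * (k - V)) * x)) := by
    funext x
    unfold il Set.indicator
    simp only [Set.mem_Iic]
    split_ifs
    · rw [one_mul, ← Real.exp_add]
      congr 1
      ring
    · rw [zero_mul, mul_zero]
  rw [e1, integral_indicator measurableSet_Iic, integral_exp_mul_Iic (by linarith : (0:ℝ) < 2 * (k - V)), mul_zero,
    Real.exp_zero]

/-- levels below the critical one -/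
theorem subc (hJ : S_JM) (hP : S_POSV) (hZ : S_LZB) (hE : Run7.h291.WN.S_EQC) {d : ℝ → ℝ} (hd : Ad d)
    {h : ℝ → Fin m → ℝ} (hh : ∀ᶠ T : ℝ in atTop, ∀ j, |h T j| ≤ T ^ ((1:ℝ) / 2)) (w : Fin m → ℝ) {c : ℝ} (hc : 0 < c)
    (hq : ∀ᶠ T : ℝ in atTop, c * Real.log (1 / d T) ≤ qf (d T) (h T) w) {k V : ℝ} (hk : 0 < k) (hV : V < k) :
    Tendsto (fun T : ℝ => Real.sqrt (Real.pi * qf (d T) (h T) w) *
      Real.exp (-((2 * k * V - V ^ 2) * qf (d T) (h T) w)) /
      (aV (cc fun j => V * w j) (cc fun j => V * w j) (h T)).re *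
        TM (d T) (h T) w k (V * qf (d T) (h T) w) T) atTop (𝓝 (1 / (2 * (k - V)))) := by
  obtain ⟨M, hM1, hM2⟩ := sub_bd hk hV
  have hm : Measurable fun x : ℝ => il 0 x * Real.exp (2 * k * x) := (il_meas 0).mul (by fun_prop)
  have h1 := tst hJ hP hZ hE hd hh w hc hq V (fun x => il 0 x * Real.exp (2 * k * x)) {0} hm (fun x hx => by
    have h2 : ContinuousAt (fun x : ℝ => Real.exp (2 * k * x)) x := by fun_prop
    exact (il_cont (by simpa using hx)).mul h2) M hM1 hM2
  rw [sub_int hV] at h1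
  refine h1.congr' ?_
  filter_upwards [small hd] with T hT
  obtain ⟨h0, h1, hT1⟩ := hT
  have hT0 : 0 < T := by linarith
  have hYm := Yw_meas h0 h1 (h T) w
  unfold TM
  rw [int_sub hT0.le hYm _ (fun t => Real.exp (2 * k * Yw (d T) (h T) w t))]
  have e1 : ∫ t in (0:ℝ)..T, il (V * qf (d T) (h T) w) (Yw (d T) (h T) w t) * Real.exp (2 * k * Yw (d T) (h T) w t) =
      Real.exp (2 * k * V * qf (d T) (h T) w) * ∫ t in (0:ℝ)..T, il 0 (Yw (d T) (h T) w t - V * qf (d T) (h T) w) *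
        Real.exp (2 * k * (Yw (d T) (h T) w t - V * qf (d T) (h T) w)) := by
    rw [← intervalIntegral.integral_const_mul]
    refine intervalIntegral.integral_congr fun t _ => ?_
    show il (V * qf (d T) (h T) w) (Yw (d T) (h T) w t) * Real.exp (2 * k * Yw (d T) (h T) w t) =
      Real.exp (2 * k * V * qf (d T) (h T) w) * (il 0 (Yw (d T) (h T) w t - V * qf (d T) (h T) w) *
        Real.exp (2 * k * (Yw (d T) (h T) w t - V * qf (d T) (h T) w)))
    have e2 : il (V * qf (d T) (h T) w) (Yw (d T) (h T) w t) = il 0 (Yw (d T) (h T) w t - V * qf (d T) (h T) w) := by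
      unfold il
      by_cases hz : Yw (d T) (h T) w t ≤ V * qf (d T) (h T) w
      · rw [if_pos hz, if_pos (by linarith)]
      · rw [if_neg hz, if_neg (fun h => hz (by linarith))]
    rw [e2, mul_left_comm, ← Real.exp_add]
    congr 2
    ring
  rw [e1]
  have e3 : Real.exp (-((2 * k * V - V ^ 2) * qf (d T) (h T) w)) * Real.exp (2 * k * V * qf (d T) (h T) w) =
      Real.exp (V ^ 2 * qf (d T) (h T) w) := by
    rw [← Real.exp_add]
    congr 1
    ring
  rw [← e3]
  ring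

/-- level sets -/
theorem levl (hJ : S_JM) (hP : S_POSV) (hZ : S_LZB) (hE : Run7.h291.WN.S_EQC) {d : ℝ → ℝ} (hd : Ad d)
    {h : ℝ → Fin m → ℝ} (hh : ∀ᶠ T : ℝ in atTop, ∀ j, |h T j| ≤ T ^ ((1:ℝ) / 2)) (w : Fin m → ℝ) {c : ℝ} (hc : 0 < c)
    (hq : ∀ᶠ T : ℝ in atTop, c * Real.log (1 / d T) ≤ qf (d T) (h T) w) {V : ℝ} (hV : V ≠ 0) (b : ℝ) :
    Tendsto (fun T : ℝ => Real.sqrt (Real.pi * qf (d T) (h T) w) * Real.exp (V ^ 2 * qf (d T) (h T) w) /
      (aV (cc fun j => V * w j) (cc fun j => V * w j) (h T)).re *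
      ((1 / T) * (volume {t : ℝ | 0 ≤ t ∧ t ≤ T ∧ 0 < V * (Yw (d T) (h T) w t - V * qf (d T) (h T) w + b)}).toReal))
      atTop (𝓝 (Real.exp (2 * V * b) / (2 * |V|))) := by
  obtain ⟨M, hM0, hM⟩ := i1_bd hV b
  have h1 := tst hJ hP hZ hE hd hh w hc hq V (i1 V b) {-b} (i1_meas V b) (fun x hx => i1_cont hV (by simpa using hx))
    (max M 1) (fun x => by
      rw [abs_of_nonneg (i1_nonneg _ _ _)]
      exact (i1_le _ _ _).trans (le_max_right _ _)) (fun x => by
      rw [abs_of_nonneg (i1_nonneg _ _ _)]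
      exact (hM x).trans (mul_le_mul_of_nonneg_right (le_max_left _ _) (Real.exp_pos _).le))
  rw [i1_int hV] at h1
  refine h1.congr' ?_
  filter_upwards [small hd] with T hT
  obtain ⟨h0, h1, hT1⟩ := hT
  have hT0 : 0 < T := by linarith
  have hYm := (Yw_meas h0 h1 (h T) w).sub_const (V * qf (d T) (h T) w)
  have h2 := int_set hT0.le hYm V b (fun _ => (1:ℝ))
  simp only [mul_one] at h2
  rw [h2, setIntegral_const, smul_eq_mul, mul_one, measureReal_def]

end Run7.h42.TP
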