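import Pool.Agent.Run7.h42.TP.App
import Pool.Agent.N748.MG.Stm2

set_option autoImplicit false

/-!
# Truncated moments of products of zetas at arbitrary shifts (helper42): test functions
-/

namespace Run7.h42.TP

open Finset Filter MeasureTheory Topology Complex
open Pool.Agent.N748.MG Pool.Agent.N748.MJ
open Pool.Agent.N748.MJ.SM (cc)
open Run7.h42.LP Run7.h42.LB

variable {m : ℕ}

/-- the logarithm of the product -/
noncomputable def Yw (δ : ℝ) (h w : Fin m → ℝ) (t : ℝ) : ℝ := ∑ j, w j * Real.log (mz δ (t + h j))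

lemma Yw_meas {δ : ℝ} (h0 : 0 < δ) (h1 : δ ≤ 1 / 16) (h w : Fin m → ℝ) : Measurable (Yw δ h w) :=
  Finset.measurable_fun_sum _ fun j _ => (Real.measurable_log.comp (mz_meas h0 h1 (h j))).const_mul _

lemma pj_XV (δ : ℝ) (h w : Fin m → ℝ) (V t : ℝ) (i : Fin 1) :
    pj w (XV δ h (fun j => V * w j) t) i = Yw δ h w t - V * qf δ h w := by
  unfold pj XV Yw
  rw [← sum_w_me, ← Finset.sum_sub_distrib]
  exact Finset.sum_congr rfl fun j _ => by ring

lemma rho_exp {δ r T t : ℝ} (h w : Fin m → ℝ) (V : ℝ) (hz : ∀ j, 0 < mz δ (t + h j)) :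
    rhoV δ r T h (fun j => V * w j) t =
      1 / T * Real.exp (-(V ^ 2 * qf δ h w)) / r * Real.exp (2 * V * Yw δ h w t) := by
  unfold rhoV
  rw [prod_rpow_exp h _ hz, qf_smul]
  congr 2
  unfold Yw
  rw [Finset.mul_sum]
  exact Finset.sum_congr rfl fun j _ => by ring

/-- the integral against the measures -/
theorem int_nuP {δ r T : ℝ} (h0 : 0 < δ) (h1 : δ ≤ 1 / 16) (hr : 0 < r) (hT : 0 < T) (h w : Fin m → ℝ) (V : ℝ)
    {N : Set ℝ} (hN : MeasurableSet N) (hnz : ∀ t ∈ N, ∀ j, riemannZeta (pw δ (t + h j)) ≠ 0)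
    {f : ℝ → ℝ} (hf : Measurable f) :
    ∫ x, f (x 0) ∂(nuP δ r T h w V N) = Real.exp (-(V ^ 2 * qf δ h w)) / r *
      ((1 / T) * ∫ t in N, Real.exp (2 * V * Yw δ h w t) * f (Yw δ h w t - V * qf δ h w)) := by
  have hm : Measurable fun x : Fin 1 → ℝ => f (x 0) := hf.comp (measurable_pi_apply 0)
  unfold nuP
  rw [integral_map (pj_meas w).aemeasurable hm.aestronglyMeasurable,
    int_nuV h0 h1 hr hT h _ N (f := fun x => f (pj w x 0)) (hm.comp (pj_meas w)).stronglyMeasurable,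
    ← integral_const_mul, ← integral_const_mul]
  refine setIntegral_congr_fun hN fun t ht => ?_
  have hz : ∀ j, 0 < mz δ (t + h j) := fun j => norm_pos_iff.2 (hnz t ht j)
  simp only [smul_eq_mul]
  rw [pj_XV, rho_exp h w V hz]
  ring

/-- the sets and the measures -/
theorem setup (hJ : S_JM) (hP : S_POSV) (hZ : S_LZB) (hE : Run7.h291.WN.S_EQC) {d : ℝ → ℝ} (hd : Ad d)
    {h : ℝ → Fin m → ℝ} (hh : ∀ᶠ T : ℝ in atTop, ∀ j, |h T j| ≤ T ^ ((1:ℝ) / 2)) (w : Fin m → ℝ) {c : ℝ} (hc : 0 < c)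
    (hq : ∀ᶠ T : ℝ in atTop, c * Real.log (1 / d T) ≤ qf (d T) (h T) w) (V : ℝ) {D : ℝ} (hD : 0 < D) :
    ∃ (r : ℝ → ℝ) (c1 : ℝ) (N : ℝ → Set ℝ), 0 < c1 ∧ (∀ T, c1 ≤ r T) ∧
      (∀ T, (aV (cc fun j => V * w j) (cc fun j => V * w j) (h T)).re = r T) ∧
      (∀ n, ∀ᶠ T : ℝ in atTop, Gd d h D n T (N T)) ∧
      LH (fun T => nuP (d T) (r T) T (h T) w V (N T)) (fun T ξ => ξ 0 ^ 2 * qf (d T) (h T) w)
        (fun T => Real.log (1 / d T)) c (((m : ℝ) + 1) * (∑ j, w j ^ 2) + 1) := by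
  have hW0 : 0 ≤ ∑ j, |w j| := Finset.sum_nonneg fun j _ => abs_nonneg _
  obtain ⟨c1, C1, hc1, hC1, hPo⟩ := hP m (|V| * ∑ j, |w j|) (by positivity)
  set r : ℝ → ℝ := fun T => (aV (cc fun j => V * w j) (cc fun j => V * w j) (h T)).re with hrd
  have hrr : ∀ T, c1 ≤ r T ∧ aV (cc fun j => V * w j) (cc fun j => V * w j) (h T) = r T := by
    intro T
    obtain ⟨a, ha1, ha2⟩ := (hPo (h T)).2 (fun j => V * w j) (abs_kw w V)
    have ha2' : aV (cc fun j => V * w j) (cc fun j => V * w j) (h T) = a := ha2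
    have e : r T = a := by
      rw [hrd]
      simp only
      rw [ha2', Complex.ofReal_re]
    rw [e]
    exact ⟨ha1, ha2'⟩
  obtain ⟨N, hN⟩ := exists_sets hJ hd h hh hD
  exact ⟨r, c1, N, hc1, fun T => (hrr T).1, fun T => rfl, hN,
    LHp hP hZ hE hd w hc hq V hN hc1 (fun T => (hrr T).1) (fun T => (hrr T).2)⟩

/-- the form is at most a multiple of the logarithm -/
lemma qf_log (hZ : S_LZB) {δ : ℝ} (h0 : 0 < δ) (h1 : δ ≤ 1 / 16) (h w : Fin m → ℝ) :
    qf δ h w ≤ (((m : ℝ) + 1) * (∑ j, w j ^ 2) + 1) * Real.log (1 / δ) := by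
  have h2 := qf_up hZ h0 h1 h w
  have h3 := log_inv_ge h0 h1
  linarith

/-- powers of the logarithm against powers of the parameter -/
lemma exp_q_le (hZ : S_LZB) {δ : ℝ} (h0 : 0 < δ) (h1 : δ ≤ 1 / 16) (h w : Fin m → ℝ) {A : ℝ} (hA : 0 ≤ A) :
    Real.exp (A * qf δ h w) ≤ δ ^ (-(A * (((m : ℝ) + 1) * (∑ j, w j ^ 2) + 1))) := by
  rw [Real.rpow_def_of_pos h0]
  apply Real.exp_le_exp.2
  have h2 := mul_le_mul_of_nonneg_left (qf_log hZ h0 h1 h w) hA
  have h4 : Real.log (1 / δ) = -Real.log δ := by rw [one_div, Real.log_inv]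
  rw [h4] at h2
  linarith

/-- the theorem for test functions -/
theorem tst (hJ : S_JM) (hP : S_POSV) (hZ : S_LZB) (hE : Run7.h291.WN.S_EQC) {d : ℝ → ℝ} (hd : Ad d)
    {h : ℝ → Fin m → ℝ} (hh : ∀ᶠ T : ℝ in atTop, ∀ j, |h T j| ≤ T ^ ((1:ℝ) / 2)) (w : Fin m → ℝ) {c : ℝ} (hc : 0 < c)
    (hq : ∀ᶠ T : ℝ in atTop, c * Real.log (1 / d T) ≤ qf (d T) (h T) w) (V : ℝ)
    (g : ℝ → ℝ) (S : Finset ℝ) (hg : Measurable g) (hgc : ∀ x, x ∉ S → ContinuousAt g x) (M : ℝ) (hM : ∀ x, |g x| ≤ M)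
    (hM2 : ∀ x, |g x| * (1 + x ^ 2) ≤ M * Real.exp (2 * V * x)) :
    Tendsto (fun T : ℝ => Real.sqrt (Real.pi * qf (d T) (h T) w) * Real.exp (V ^ 2 * qf (d T) (h T) w) /
      (aV (cc fun j => V * w j) (cc fun j => V * w j) (h T)).re *
      ((1 / T) * ∫ t in (0:ℝ)..T, g (Yw (d T) (h T) w t - V * qf (d T) (h T) w))) atTop
      (𝓝 (∫ x : ℝ, Real.exp (-(2 * V * x)) * g x)) := by
  set C : ℝ := ((m : ℝ) + 1) * (∑ j, w j ^ 2) + 1 with hC
  have hw2 : 0 ≤ ∑ j, w j ^ 2 := Finset.sum_nonneg fun j _ => sq_nonneg _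
  have hC0 : 0 < C := by positivity
  set D : ℝ := V ^ 2 * C + 2 with hD
  obtain ⟨r, c1, N, hc1, hr, hra, hN, H⟩ := setup hJ hP hZ hE hd hh w hc hq V (D := D) (by positivity)
  have hM0 : 0 ≤ M := (abs_nonneg _).trans (hM 0)
  have hsm := small hd
  have hΛ : ∀ᶠ T : ℝ in atTop, 0 < qf (d T) (h T) w := by
    filter_upwards [hq, hsm] with T hT hT2
    have := log_inv_ge hT2.1 hT2.2.1
    exact lt_of_lt_of_le (by nlinarith) hT
  -- the local limit theorem
  have hec : Continuous fun x : ℝ => Real.exp (-(2 * V * x)) := by fun_prop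
  have hS0 : volume {x : Fin 1 → ℝ | x 0 ∈ S} = 0 := by
    have e1 : {x : Fin 1 → ℝ | x 0 ∈ S} = ⋃ s ∈ S, bdy (fun _ : Fin 1 => -s) := by
      ext x
      simp only [Set.mem_ofPred_eq, Set.mem_iUnion, bdy, neg_neg]
      constructor
      · intro hx
        exact ⟨x 0, hx, 0, rfl⟩
      · rintro ⟨s, hs, j, hj⟩
        have : j = 0 := Subsingleton.elim _ _
        rw [this] at hj
        rw [hj]
        exact hs
    rw [e1]
    exact (measure_biUnion_null_iff S.countable_toSet).2 fun s _ => bdy_null _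
  have key := llt H (fun x => Real.exp (-(2 * V * x 0)) * g (x 0)) {x : Fin 1 → ℝ | x 0 ∈ S} hS0
    ((hec.measurable.mul hg).comp (measurable_pi_apply 0)) (fun x hx => by
      have h1 : ContinuousAt (fun y : ℝ => Real.exp (-(2 * V * y)) * g y) (x 0) :=
        hec.continuousAt.mul (hgc _ hx)
      have h2 := ContinuousAt.comp (f := fun z : Fin 1 → ℝ => z 0) (x := x) h1 (continuous_apply 0).continuousAt
      exact h2) M (fun x => by
      simp only [Finset.univ_unique, Fin.default_eq_zero, Finset.prod_singleton]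
      rw [abs_mul, Real.abs_exp, mul_assoc]
      calc Real.exp (-(2 * V * x 0)) * (|g (x 0)| * (1 + x 0 ^ 2)) ≤
            Real.exp (-(2 * V * x 0)) * (M * Real.exp (2 * V * x 0)) :=
            mul_le_mul_of_nonneg_left (hM2 _) (Real.exp_pos _).le
        _ = M * (Real.exp (-(2 * V * x 0)) * Real.exp (2 * V * x 0)) := by ring
        _ = M := by rw [← Real.exp_add, neg_add_cancel, Real.exp_zero, mul_one])
  have hI : ∫ x : Fin 1 → ℝ, Real.exp (-(2 * V * x 0)) * g (x 0) = ∫ x : ℝ, Real.exp (-(2 * V * x)) * g x := by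
    have h1 := (volume_preserving_funUnique (Fin 1) ℝ).integral_comp'
      (g := fun x : ℝ => Real.exp (-(2 * V * x)) * g x)
    rw [← h1]
    rfl
  rw [hI] at key
  -- the rest
  set E : ℝ → ℝ := fun T => Real.sqrt (Real.pi * qf (d T) (h T) w) * Real.exp (V ^ 2 * qf (d T) (h T) w) / r T *
    ((1 / T) * ∫ t in Set.Icc 0 T \ N T, g (Yw (d T) (h T) w t - V * qf (d T) (h T) w)) with hEd
  have hE0 : Tendsto E atTop (𝓝 0) := by
    have hb : ∀ᶠ T : ℝ in atTop, ‖E T‖ ≤ (Real.sqrt (Real.pi * C) / c1 * M) * d T := by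
      filter_upwards [hN 0, hsm, hΛ] with T hT hT2 hΛT
      obtain ⟨h0, h1, hT1⟩ := hT2
      have hT0 : 0 < T := by linarith
      have hr0 : 0 < r T := lt_of_lt_of_le hc1 (hr T)
      have h2 : ‖∫ t in Set.Icc 0 T \ N T, g (Yw (d T) (h T) w t - V * qf (d T) (h T) w)‖ ≤ M * (d T ^ D * T) := by
        have hfin : volume (Set.Icc 0 T \ N T) < ⊤ := lt_of_le_of_lt hT.vol ENNReal.ofReal_lt_top
        refine (norm_setIntegral_le_of_norm_le_const (C := M) hfin fun t _ => hM _).trans ?_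
        refine mul_le_mul_of_nonneg_left ?_ hM0
        have h3 := ENNReal.toReal_mono ENNReal.ofReal_ne_top hT.vol
        rw [ENNReal.toReal_ofReal (by positivity)] at h3
        exact h3
      have h4 := exp_q_le hZ h0 h1 (h T) w (sq_nonneg V)
      have h5 : Real.sqrt (Real.pi * qf (d T) (h T) w) ≤ Real.sqrt (Real.pi * C) * (1 / d T) := by
        have h6 := qf_log hZ h0 h1 (h T) w
        have h7 : Real.log (1 / d T) ≤ 1 / d T := Real.log_le_self (by positivity)
        have h8 : 1 ≤ 1 / d T := by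
          rw [le_div_iff₀ h0]
          linarith
        have h9 : Real.pi * qf (d T) (h T) w ≤ (Real.pi * C) * (1 / d T) ^ 2 := by
          have hp := Real.pi_pos
          have k1 : qf (d T) (h T) w ≤ C * (1 / d T) ^ 2 := by
            refine h6.trans (mul_le_mul_of_nonneg_left ?_ hC0.le)
            nlinarith
          calc Real.pi * qf (d T) (h T) w ≤ Real.pi * (C * (1 / d T) ^ 2) := mul_le_mul_of_nonneg_left k1 hp.le
            _ = _ := by ring
        refine (Real.sqrt_le_sqrt h9).trans ?_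
        have hp := Real.pi_pos
        rw [Real.sqrt_mul (by positivity), Real.sqrt_sq (by positivity)]
      have hpow : (1 / d T) * d T ^ (-(V ^ 2 * C)) * d T ^ D = d T := by
        have e1 : (1 / d T) = d T ^ (-(1:ℝ)) := by
          rw [Real.rpow_neg h0.le, Real.rpow_one, one_div]
        rw [e1, ← Real.rpow_add h0, ← Real.rpow_add h0, hD]
        rw [show -(1:ℝ) + -(V ^ 2 * C) + (V ^ 2 * C + 2) = 1 by ring, Real.rpow_one]
      rw [hEd]
      simp only
      rw [norm_mul, norm_mul, norm_div, norm_mul, Real.norm_of_nonneg (Real.sqrt_nonneg _),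
        Real.norm_of_nonneg (Real.exp_pos _).le,
        Real.norm_of_nonneg hr0.le, Real.norm_of_nonneg (by positivity : (0 : ℝ) ≤ 1 / T)]
      calc Real.sqrt (Real.pi * qf (d T) (h T) w) * Real.exp (V ^ 2 * qf (d T) (h T) w) / r T *
            (1 / T * ‖∫ t in Set.Icc 0 T \ N T, g (Yw (d T) (h T) w t - V * qf (d T) (h T) w)‖)
          ≤ (Real.sqrt (Real.pi * C) * (1 / d T)) * d T ^ (-(V ^ 2 * C)) / c1 * (1 / T * (M * (d T ^ D * T))) := by
            gcongr
            exact hr T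
        _ = (Real.sqrt (Real.pi * C) / c1 * M) * ((1 / d T) * d T ^ (-(V ^ 2 * C)) * d T ^ D) := by
            have e6 : (1 : ℝ) / T * (M * (d T ^ D * T)) = M * d T ^ D := by
              field_simp
            rw [e6]
            ring
        _ = (Real.sqrt (Real.pi * C) / c1 * M) * d T := by rw [hpow]
    have h0 : Tendsto (fun T : ℝ => (Real.sqrt (Real.pi * C) / c1 * M) * d T) atTop (𝓝 0) := by
      have h1 := hd.t0.const_mul (Real.sqrt (Real.pi * C) / c1 * M)
      rwa [mul_zero] at h1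
    exact squeeze_zero_norm' hb h0
  have h9 := key.add hE0
  rw [add_zero] at h9
  refine h9.congr' ?_
  filter_upwards [hN 0, hsm, hΛ] with T hT hT2 hΛT
  obtain ⟨h0, h1, hT1⟩ := hT2
  have hT0 : 0 < T := by linarith
  have hr0 : 0 < r T := lt_of_lt_of_le hc1 (hr T)
  have hYm := Yw_meas h0 h1 (h T) w
  have hgm : Measurable fun t => g (Yw (d T) (h T) w t - V * qf (d T) (h T) w) := hg.comp (hYm.sub_const _)
  have hint : IntegrableOn (fun t => g (Yw (d T) (h T) w t - V * qf (d T) (h T) w)) (Set.Icc 0 T) volume := by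
    refine Measure.integrableOn_of_bounded (M := M) ?_ hgm.aestronglyMeasurable (Eventually.of_forall fun t => hM _)
    rw [Real.volume_Icc]
    exact ENNReal.ofReal_ne_top
  have hsplit : ∫ t in (0 : ℝ)..T, g (Yw (d T) (h T) w t - V * qf (d T) (h T) w) =
      (∫ t in N T, g (Yw (d T) (h T) w t - V * qf (d T) (h T) w)) +
        ∫ t in Set.Icc 0 T \ N T, g (Yw (d T) (h T) w t - V * qf (d T) (h T) w) := by
    rw [intervalIntegral.integral_of_le hT0.le, ← integral_Icc_eq_integral_Ioc]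
    have h2 := setIntegral_union (μ := volume) (f := fun t => g (Yw (d T) (h T) w t - V * qf (d T) (h T) w))
      (Set.disjoint_sdiff_right (s := N T) (t := Set.Icc 0 T))
      (measurableSet_Icc.diff hT.meas) (hint.mono_set hT.sub) (hint.mono_set Set.sdiff_subset)
    rw [Set.union_sdiff_cancel hT.sub] at h2
    exact h2
  have h3 := int_nuP h0 h1 hr0 hT0 (h T) w V hT.meas hT.nz (f := fun x => Real.exp (-(2 * V * x)) * g x)
    (hec.measurable.mul hg)
  have h4 : ∫ t in N T, Real.exp (2 * V * Yw (d T) (h T) w t) *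
      (Real.exp (-(2 * V * (Yw (d T) (h T) w t - V * qf (d T) (h T) w))) *
        g (Yw (d T) (h T) w t - V * qf (d T) (h T) w)) =
      Real.exp (2 * (V ^ 2 * qf (d T) (h T) w)) * ∫ t in N T, g (Yw (d T) (h T) w t - V * qf (d T) (h T) w) := by
    rw [← integral_const_mul]
    refine integral_congr_ae (Eventually.of_forall fun t => ?_)
    simp only
    rw [← mul_assoc, ← Real.exp_add]
    congr 2
    ring
  rw [h4] at h3
  rw [hEd]
  simp only
  rw [AN_one hΛT, h3, hsplit, hra T]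
  have h5 : Real.exp (-(V ^ 2 * qf (d T) (h T) w)) * Real.exp (2 * (V ^ 2 * qf (d T) (h T) w)) =
      Real.exp (V ^ 2 * qf (d T) (h T) w) := by
    rw [← Real.exp_add]
    congr 1
    ring
  rw [← h5]
  ring

end Run7.h42.TP
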